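import Mathlib

/-! MP_49c203: the weighted partition. -/

namespace MP49c203

set_option linter.unusedSectionVars false
set_option linter.unusedSimpArgs false

open Filter Topology Finset

open scoped InnerProductSpace

variable {H : Type*} [NormedAddCommGroup H] [InnerProductSpace ℝ H]

/-- `C¹` with values in `[0, 1]` and bounded derivative -/
def Nice (f : H → ℝ) : Prop :=
  (∀ x, 0 ≤ f x ∧ f x ≤ 1) ∧ ∃ (f' : H → H →L[ℝ] ℝ) (C : ℝ),
    (∀ x, HasFDerivAt f (f' x) x) ∧ Continuous f' ∧ ∀ x, ‖f' x‖ ≤ C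

theorem Nice.continuous {f : H → ℝ} (h : Nice f) : Continuous f := by
  obtain ⟨_, f', C, h1, _⟩ := h
  exact continuous_iff_continuousAt.2 fun x => (h1 x).continuousAt

theorem nice_one : Nice (fun _ : H => (1 : ℝ)) :=
  ⟨fun _ => ⟨zero_le_one, le_rfl⟩, fun _ => 0, 0, fun _ => hasFDerivAt_const _ _, continuous_const,
    fun _ => by simp⟩

theorem Nice.one_sub {f : H → ℝ} (h : Nice f) : Nice fun x => 1 - f x := by
  obtain ⟨h0, f', C, h1, h2, h3⟩ := h
  refine ⟨fun x => ⟨by linarith [(h0 x).2], by linarith [(h0 x).1]⟩, fun x => -f' x, C, fun x => ?_,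
    h2.neg, fun x => by rw [norm_neg]; exact h3 x⟩
  exact (h1 x).const_sub 1

theorem Nice.mul {f g : H → ℝ} (hf : Nice f) (hg : Nice g) : Nice fun x => f x * g x := by
  have cf := hf.continuous
  have cg := hg.continuous
  obtain ⟨h0, f', C, h1, h2, h3⟩ := hf
  obtain ⟨k0, g', D, k1, k2, k3⟩ := hg
  refine ⟨fun x => ⟨mul_nonneg (h0 x).1 (k0 x).1, mul_le_one₀ (h0 x).2 (k0 x).1 (k0 x).2⟩,
    fun x => f x • g' x + g x • f' x, D + C, fun x => (h1 x).mul (k1 x),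
    (cf.smul k2).add (cg.smul h2), fun x => ?_⟩
  refine (norm_add_le _ _).trans (add_le_add ?_ ?_)
  · rw [norm_smul, Real.norm_of_nonneg (h0 x).1]
    exact (mul_le_of_le_one_left (norm_nonneg _) (h0 x).2).trans (k3 x)
  · rw [norm_smul, Real.norm_of_nonneg (k0 x).1]
    exact (mul_le_of_le_one_left (norm_nonneg _) (k0 x).2).trans (h3 x)

theorem st_deriv_zero {t : ℝ} (h : t < 0 ∨ 1 < t) : deriv Real.smoothTransition t = 0 := by
  rcases h with h | h
  · have : Real.smoothTransition =ᶠ[𝓝 t] fun _ => 0 := by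
      filter_upwards [gt_mem_nhds h] with s hs
      exact Real.smoothTransition.zero_of_nonpos (le_of_lt hs)
    rw [this.deriv_eq]; simp
  · have : Real.smoothTransition =ᶠ[𝓝 t] fun _ => 1 := by
      filter_upwards [lt_mem_nhds h] with s hs
      exact Real.smoothTransition.one_of_one_le (le_of_lt hs)
    rw [this.deriv_eq]; simp

theorem continuous_deriv_st : Continuous (deriv Real.smoothTransition) :=
  (Real.smoothTransition.contDiff (n := 1)).continuous_deriv le_rfl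

theorem hasDerivAt_st (t : ℝ) :
    HasDerivAt Real.smoothTransition (deriv Real.smoothTransition t) t :=
  (((Real.smoothTransition.contDiff (n := 1)).differentiable (by norm_num)) t).hasDerivAt

theorem st_deriv_bound : ∃ C : ℝ, 0 ≤ C ∧ ∀ t, |deriv Real.smoothTransition t| ≤ C := by
  obtain ⟨C, hC⟩ := isCompact_Icc.exists_bound_of_continuousOn (s := Set.Icc (0 : ℝ) 1)
    continuous_deriv_st.continuousOn
  refine ⟨max C 0, le_max_right _ _, fun t => ?_⟩
  by_cases h : t ∈ Set.Icc (0 : ℝ) 1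
  · exact (hC t h).trans (le_max_left _ _)
  · have h2 : t < 0 ∨ 1 < t := by
      by_contra h3
      push Not at h3
      exact h ⟨h3.1, h3.2⟩
    rw [st_deriv_zero h2, abs_zero]
    exact le_max_right _ _

theorem nice_st {f : H → ℝ} {f' : H → H →L[ℝ] ℝ} {C : ℝ} (h1 : ∀ x, HasFDerivAt f (f' x) x)
    (h2 : Continuous f') (h3 : ∀ x, 0 ≤ f x → f x ≤ 1 → ‖f' x‖ ≤ C) :
    Nice fun x => Real.smoothTransition (f x) := by
  obtain ⟨D, hD0, hD⟩ := st_deriv_bound
  have cf : Continuous f := continuous_iff_continuousAt.2 fun x => (h1 x).continuousAt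
  refine ⟨fun x => ⟨Real.smoothTransition.nonneg _, Real.smoothTransition.le_one _⟩,
    fun x => deriv Real.smoothTransition (f x) • f' x, D * max C 0,
    fun x => (hasDerivAt_st (f x)).comp_hasFDerivAt x (h1 x),
    (continuous_deriv_st.comp cf).smul h2, fun x => ?_⟩
  rw [norm_smul, Real.norm_eq_abs]
  by_cases h : 0 ≤ f x ∧ f x ≤ 1
  · exact mul_le_mul (hD _) ((h3 x h.1 h.2).trans (le_max_left _ _)) (norm_nonneg _) hD0
  · have h4 : f x < 0 ∨ 1 < f x := by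
      by_contra h5
      push Not at h5
      exact h ⟨h5.1, h5.2⟩
    rw [st_deriv_zero h4, abs_zero, zero_mul]
    positivity

/-- the bump: `1` for `‖y - x₀‖ ≤ r / 2`, `0` for `‖y - x₀‖ ≥ r` -/
noncomputable def bump (x₀ : H) (r : ℝ) (y : H) : ℝ :=
  Real.smoothTransition ((r ^ 2 - ‖y - x₀‖ ^ 2) * (4 / (3 * r ^ 2)))

theorem bump_nice (x₀ : H) {r : ℝ} (hr : 0 < r) : Nice (bump x₀ r) := by
  have h1 : ∀ y : H, HasFDerivAt (fun y : H => (r ^ 2 - ‖y - x₀‖ ^ 2) * (4 / (3 * r ^ 2)))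
      (-((4 / (3 * r ^ 2)) • (2 : ℝ) • innerSL ℝ (y - x₀))) y := by
    intro y
    have h2 : HasFDerivAt (fun y : H => ‖y - x₀‖ ^ 2) ((2 : ℝ) • innerSL ℝ (y - x₀)) y := by
      have h3 : HasFDerivAt (fun y : H => y - x₀) (ContinuousLinearMap.id ℝ H) y :=
        (hasFDerivAt_id y).sub_const x₀
      refine h3.norm_sq.congr_fderiv ?_
      ext z
      simp [two_mul]
    refine ((h2.const_sub (r ^ 2)).mul_const (4 / (3 * r ^ 2))).congr_fderiv ?_
    ext z
    simp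
  refine nice_st (C := 4 / (3 * r ^ 2) * (2 * r)) h1 ?_ ?_
  · have h7 : Continuous fun y : H => innerSL ℝ (y - x₀) :=
      (innerSL ℝ : H →L[ℝ] H →L[ℝ] ℝ).continuous.comp (continuous_id.sub continuous_const)
    exact ((h7.const_smul (2 : ℝ)).const_smul (4 / (3 * r ^ 2))).neg
  · intro y hy _
    have h4 : 0 < 4 / (3 * r ^ 2) := by positivity
    have h5 : ‖y - x₀‖ ^ 2 ≤ r ^ 2 := by
      by_contra h6
      push Not at h6
      have := mul_neg_of_neg_of_pos (show r ^ 2 - ‖y - x₀‖ ^ 2 < 0 by linarith) h4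
      linarith
    have h6 : ‖y - x₀‖ ≤ r := le_of_sq_le_sq h5 hr.le
    rw [norm_neg, norm_smul, norm_smul, innerSL_apply_norm, Real.norm_of_nonneg h4.le,
      Real.norm_of_nonneg (by norm_num : (0 : ℝ) ≤ 2)]
    gcongr

theorem bump_eq_one (x₀ : H) {r : ℝ} (hr : 0 < r) {y : H} (h : ‖y - x₀‖ < r / 2) :
    bump x₀ r y = 1 := by
  refine Real.smoothTransition.one_of_one_le ?_
  rw [mul_div_assoc', le_div_iff₀ (by positivity)]
  have h1 : ‖y - x₀‖ ^ 2 ≤ (r / 2) ^ 2 := by gcongr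
  nlinarith

theorem bump_ne_zero (x₀ : H) {r : ℝ} (hr : 0 < r) {y : H} (h : bump x₀ r y ≠ 0) :
    ‖y - x₀‖ < r := by
  by_contra h1
  push Not at h1
  refine h (Real.smoothTransition.zero_of_nonpos ?_)
  have h2 : r ^ 2 ≤ ‖y - x₀‖ ^ 2 := by gcongr
  have h4 : 0 < 4 / (3 * r ^ 2) := by positivity
  exact mul_nonpos_of_nonpos_of_nonneg (by linarith) h4.le

theorem count_le (T : ℕ) {w : ℝ} (h0 : 0 ≤ w) :
    ∑ t ∈ range T, Real.smoothTransition (T * w - t) ≤ T * w + 1 := by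
  have h1 : 0 ≤ (T : ℝ) * w := by positivity
  have h2 : ∀ t ∈ range T, Real.smoothTransition (T * w - t) ≤
      if t < ⌈(T : ℝ) * w⌉₊ then (1 : ℝ) else 0 := by
    intro t _
    split_ifs with h
    · exact Real.smoothTransition.le_one _
    · push Not at h
      refine (Real.smoothTransition.zero_of_nonpos ?_).le
      have h3 : (T : ℝ) * w ≤ ⌈(T : ℝ) * w⌉₊ := Nat.le_ceil _
      have h4 : ((⌈(T : ℝ) * w⌉₊ : ℕ) : ℝ) ≤ t := by exact_mod_cast h
      linarith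
  refine (Finset.sum_le_sum h2).trans ?_
  rw [← Finset.sum_filter, Finset.sum_const, nsmul_eq_mul, mul_one]
  have h3 : #({t ∈ range T | t < ⌈(T : ℝ) * w⌉₊}) ≤ ⌈(T : ℝ) * w⌉₊ := by
    refine (Finset.card_le_card (t := range ⌈(T : ℝ) * w⌉₊) fun t ht => ?_).trans (by simp)
    exact Finset.mem_range.2 (Finset.mem_filter.1 ht).2
  have h4 := Nat.ceil_lt_add_one h1
  have h5 : (#({t ∈ range T | t < ⌈(T : ℝ) * w⌉₊}) : ℝ) ≤ ⌈(T : ℝ) * w⌉₊ := by exact_mod_cast h3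
  linarith

theorem le_count (T : ℕ) {w : ℝ} (h0 : 0 ≤ w) (h1 : w ≤ 1) :
    T * w - 1 ≤ ∑ t ∈ range T, Real.smoothTransition (T * w - t) ^ 2 := by
  have h2 : 0 ≤ (T : ℝ) * w := by positivity
  have h3 : ⌊(T : ℝ) * w⌋₊ ≤ T := by
    refine Nat.floor_le_of_le ?_
    nlinarith [(Nat.cast_nonneg T : (0 : ℝ) ≤ T)]
  have h4 : ∑ t ∈ range ⌊(T : ℝ) * w⌋₊, Real.smoothTransition (T * w - t) ^ 2 ≤
      ∑ t ∈ range T, Real.smoothTransition (T * w - t) ^ 2 :=
    Finset.sum_le_sum_of_subset_of_nonneg (Finset.range_subset_range.2 h3)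
      fun t _ _ => sq_nonneg _
  have h5 : ∑ t ∈ range ⌊(T : ℝ) * w⌋₊, Real.smoothTransition (T * w - t) ^ 2 =
      ∑ t ∈ range ⌊(T : ℝ) * w⌋₊, (1 : ℝ) := by
    refine Finset.sum_congr rfl fun t ht => ?_
    have h6 : t + 1 ≤ ⌊(T : ℝ) * w⌋₊ := Finset.mem_range.1 ht
    have h7 : ((t + 1 : ℕ) : ℝ) ≤ (T : ℝ) * w := (Nat.le_floor_iff h2).1 h6
    push_cast at h7
    rw [Real.smoothTransition.one_of_one_le (by linarith), one_pow]
  rw [h5, Finset.sum_const, Finset.card_range, nsmul_eq_mul, mul_one] at h4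
  have h6 := Nat.sub_one_lt_floor ((T : ℝ) * w)
  linarith

/-- `R_m = ∏_{i < m} (1 - χ_i)` -/
noncomputable def RR (χ : ℕ → H → ℝ) (m : ℕ) (y : H) : ℝ := ∏ i ∈ range m, (1 - χ i y)

noncomputable def om (χ : ℕ → H → ℝ) (i : ℕ) (y : H) : ℝ := χ i y * RR χ i y

theorem RR_nice {χ : ℕ → H → ℝ} (h : ∀ i, Nice (χ i)) (m : ℕ) : Nice (RR χ m) := by
  induction m with
  | zero =>
    have : RR χ 0 = fun _ => (1 : ℝ) := by funext y; simp [RR]
    rw [this]; exact nice_one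
  | succ m ih =>
    have : RR χ (m + 1) = fun y => RR χ m y * (1 - χ m y) := by
      funext y; simp [RR, prod_range_succ]
    rw [this]; exact ih.mul (h m).one_sub

theorem om_nice {χ : ℕ → H → ℝ} (h : ∀ i, Nice (χ i)) (i : ℕ) : Nice (om χ i) :=
  (h i).mul (RR_nice h i)

theorem sum_om (χ : ℕ → H → ℝ) (m : ℕ) (y : H) :
    ∑ i ∈ range m, om χ i y = 1 - RR χ m y := by
  induction m with
  | zero => simp [RR]
  | succ m ih =>
    rw [sum_range_succ, ih, om]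
    simp only [RR, prod_range_succ]
    ring

theorem RR_zero {χ : ℕ → H → ℝ} {i m : ℕ} (h : i < m) {y : H} (hy : χ i y = 1) : RR χ m y = 0 :=
  Finset.prod_eq_zero (Finset.mem_range.2 h) (by rw [hy, sub_self])

/-- the index `i` of the package `p`; `p + 4 = 2 ^ (i + 2) + t`, `t < 2 ^ (i + 2)` -/
def pi1 (p : ℕ) : ℕ := Nat.log 2 (p + 4) - 2

def pi2 (p : ℕ) : ℕ := p + 4 - 2 ^ (pi1 p + 2)

theorem pi1_eq (i t : ℕ) (h : t < 2 ^ (i + 2)) : pi1 (2 ^ (i + 2) - 4 + t) = i := by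
  have h4 : 4 ≤ 2 ^ (i + 2) := by
    calc 4 = 2 ^ 2 := by norm_num
      _ ≤ 2 ^ (i + 2) := Nat.pow_le_pow_right (by norm_num) (by omega)
  have h5 : 2 ^ (i + 2) - 4 + t + 4 = 2 ^ (i + 2) + t := by omega
  have h6 : Nat.log 2 (2 ^ (i + 2) + t) = i + 2 := by
    rw [Nat.log_eq_iff (Or.inl (by omega))]
    refine ⟨by omega, ?_⟩
    rw [pow_succ 2 (i + 2)]; omega
  rw [pi1, h5, h6]; omega

theorem pi2_eq (i t : ℕ) (h : t < 2 ^ (i + 2)) : pi2 (2 ^ (i + 2) - 4 + t) = t := by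
  have h4 : 4 ≤ 2 ^ (i + 2) := by
    calc 4 = 2 ^ 2 := by norm_num
      _ ≤ 2 ^ (i + 2) := Nat.pow_le_pow_right (by norm_num) (by omega)
  rw [pi2, pi1_eq i t h]; omega

theorem pi1_ge {i p : ℕ} (h : 2 ^ (i + 2) - 4 ≤ p) : i ≤ pi1 p := by
  have h4 : 4 ≤ 2 ^ (i + 2) := by
    calc 4 = 2 ^ 2 := by norm_num
      _ ≤ 2 ^ (i + 2) := Nat.pow_le_pow_right (by norm_num) (by omega)
  have h5 : i + 2 ≤ Nat.log 2 (p + 4) := Nat.le_log_of_pow_le (by norm_num) (by omega)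
  rw [pi1]; omega

theorem sum_pack (F : ℕ → ℝ) (m : ℕ) :
    ∑ p ∈ range (2 ^ (m + 2) - 4), F p =
      ∑ i ∈ range m, ∑ t ∈ range (2 ^ (i + 2)), F (2 ^ (i + 2) - 4 + t) := by
  induction m with
  | zero => simp
  | succ m ih =>
    have h4 : 4 ≤ 2 ^ (m + 2) := by
      calc 4 = 2 ^ 2 := by norm_num
        _ ≤ 2 ^ (m + 2) := Nat.pow_le_pow_right (by norm_num) (by omega)
    have h5 : 2 ^ (m + 1 + 2) - 4 = (2 ^ (m + 2) - 4) + 2 ^ (m + 2) := by
      rw [show m + 1 + 2 = (m + 2) + 1 by ring, pow_succ]; omega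
    rw [h5, Finset.sum_range_add, ih, sum_range_succ]

theorem sum_inv_pow (m : ℕ) :
    ∑ i ∈ range m, (1 : ℝ) / (2 ^ (i + 2) : ℕ) = 1 / 2 - 1 / 2 ^ (m + 1) := by
  induction m with
  | zero => norm_num
  | succ m ih =>
    rw [sum_range_succ, ih]
    push_cast
    field_simp
    ring

/-- WEIGHTED PARTITION. -/
theorem weighted_partition [SecondCountableTopology H] (r : H → ℝ) (hr : ∀ x, 0 < r x) :
    ∃ (x : ℕ → H) (al : ℕ → H → ℝ) (s : ℕ → ℝ),
      (∀ p, 0 < s p) ∧ (∀ p, Nice (al p)) ∧ (∀ p y, al p y ≠ 0 → ‖y - x p‖ < r (x p)) ∧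
      (∀ y, ∃ N, ∀ᶠ z in 𝓝 y, ∀ p, N ≤ p → al p z = 0) ∧
      (∀ y N, ∑ p ∈ range N, s p * al p y ≤ 2) ∧
      (∀ y, ∃ N, ∀ M, N ≤ M → 1 / 2 ≤ ∑ p ∈ range M, s p * al p y ^ 2) := by
  obtain ⟨S, hS, hSU⟩ := TopologicalSpace.countable_cover_nhds (α := H)
    (f := fun x => Metric.ball x (r x / 2)) fun x => Metric.ball_mem_nhds x (half_pos (hr x))
  have hne : S.Nonempty := by
    by_contra h
    rw [Set.not_nonempty_iff_eq_empty] at h
    have h1 : (0 : H) ∈ (Set.univ : Set H) := Set.mem_univ 0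
    rw [← hSU, h] at h1
    simp at h1
  obtain ⟨c, hc⟩ := hS.exists_eq_range hne
  have hcov : ∀ y : H, ∃ i, ‖y - c i‖ < r (c i) / 2 := by
    intro y
    have h1 : y ∈ (Set.univ : Set H) := Set.mem_univ y
    rw [← hSU, Set.mem_iUnion₂] at h1
    obtain ⟨x, hx, hy⟩ := h1
    rw [hc] at hx
    obtain ⟨i, rfl⟩ := hx
    exact ⟨i, by rwa [Metric.mem_ball, dist_eq_norm] at hy⟩
  set χ : ℕ → H → ℝ := fun i => bump (c i) (r (c i)) with hχ
  have hχn : ∀ i, Nice (χ i) := fun i => bump_nice (c i) (hr (c i))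
  have hom := om_nice hχn
  set T : ℕ → ℕ := fun i => 2 ^ (i + 2) with hT
  have hT0 : ∀ i, (0 : ℝ) < (T i : ℝ) := fun i => by simp [hT]
  set al : ℕ → H → ℝ := fun p y =>
    Real.smoothTransition (T (pi1 p) * om χ (pi1 p) y - pi2 p) with hal
  set s : ℕ → ℝ := fun p => 1 / (T (pi1 p) : ℝ) with hs
  have hs0 : ∀ p, 0 < s p := fun p => one_div_pos.2 (hT0 _)
  have hal0 : ∀ p y, 0 ≤ al p y := fun p y => Real.smoothTransition.nonneg _
  have hzero : ∀ p y, om χ (pi1 p) y = 0 → al p y = 0 := by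
    intro p y h
    refine Real.smoothTransition.zero_of_nonpos ?_
    rw [h, mul_zero, zero_sub]
    exact neg_nonpos.2 (Nat.cast_nonneg _)
  have hblock1 : ∀ i y, ∑ t ∈ range (2 ^ (i + 2)), s (2 ^ (i + 2) - 4 + t) * al (2 ^ (i + 2) - 4 + t) y
      ≤ om χ i y + 1 / (2 ^ (i + 2) : ℕ) := by
    intro i y
    have h1 : ∑ t ∈ range (2 ^ (i + 2)), s (2 ^ (i + 2) - 4 + t) * al (2 ^ (i + 2) - 4 + t) y =
        1 / (T i : ℝ) * ∑ t ∈ range (T i), Real.smoothTransition (T i * om χ i y - t) := by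
      rw [mul_sum]
      refine Finset.sum_congr rfl fun t ht => ?_
      have ht' := Finset.mem_range.1 ht
      simp only [hs, hal, pi1_eq i t ht', pi2_eq i t ht']
    rw [h1]
    have h2 := count_le (T i) ((hom i).1 y).1
    calc 1 / (T i : ℝ) * ∑ t ∈ range (T i), Real.smoothTransition (T i * om χ i y - t)
        ≤ 1 / (T i : ℝ) * (T i * om χ i y + 1) := by gcongr
      _ = om χ i y + 1 / (T i : ℝ) := by have := (hT0 i).ne'; field_simp
      _ = _ := rfl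
  have hblock2 : ∀ i y, om χ i y - 1 / (2 ^ (i + 2) : ℕ) ≤
      ∑ t ∈ range (2 ^ (i + 2)), s (2 ^ (i + 2) - 4 + t) * al (2 ^ (i + 2) - 4 + t) y ^ 2 := by
    intro i y
    have h1 : ∑ t ∈ range (2 ^ (i + 2)), s (2 ^ (i + 2) - 4 + t) * al (2 ^ (i + 2) - 4 + t) y ^ 2 =
        1 / (T i : ℝ) * ∑ t ∈ range (T i), Real.smoothTransition (T i * om χ i y - t) ^ 2 := by
      rw [mul_sum]
      refine Finset.sum_congr rfl fun t ht => ?_
      have ht' := Finset.mem_range.1 ht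
      simp only [hs, hal, pi1_eq i t ht', pi2_eq i t ht']
    rw [h1]
    have h2 := le_count (T i) ((hom i).1 y).1 ((hom i).1 y).2
    calc om χ i y - 1 / (T i : ℝ) = 1 / (T i : ℝ) * (T i * om χ i y - 1) := by
          have := (hT0 i).ne'; field_simp
      _ ≤ _ := by gcongr
  refine ⟨fun p => c (pi1 p), al, s, hs0, fun p => ?_, fun p y h => ?_, fun y => ?_, fun y N => ?_,
    fun y => ?_⟩
  · obtain ⟨_, f', C, h1, h2, h3⟩ := hom (pi1 p)
    have h2' : Continuous fun y => (T (pi1 p) : ℝ) • f' y := h2.const_smul (T (pi1 p) : ℝ)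
    refine nice_st (f := fun y => T (pi1 p) * om χ (pi1 p) y - pi2 p)
      (f' := fun y => (T (pi1 p) : ℝ) • f' y) (C := T (pi1 p) * C) (fun y => ?_)
      h2' fun y _ _ => ?_
    · exact ((h1 y).const_mul (T (pi1 p) : ℝ)).sub_const _
    · rw [norm_smul, Real.norm_of_nonneg (hT0 _).le]
      exact mul_le_mul_of_nonneg_left (h3 y) (hT0 _).le
  · refine bump_ne_zero (c (pi1 p)) (hr _) fun h1 => h (hzero p y ?_)
    have h2 : χ (pi1 p) y = 0 := h1
    rw [om, h2, zero_mul]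
  · obtain ⟨i, hi⟩ := hcov y
    refine ⟨2 ^ (i + 1 + 2) - 4, ?_⟩
    have h1 : Metric.ball (c i) (r (c i) / 2) ∈ 𝓝 y := by
      refine Metric.isOpen_ball.mem_nhds ?_
      rw [Metric.mem_ball, dist_eq_norm]; exact hi
    filter_upwards [h1] with z hz p hp
    have h2 : i < pi1 p := pi1_ge hp
    refine hzero p z ?_
    rw [Metric.mem_ball, dist_eq_norm] at hz
    have h3 : χ i z = 1 := bump_eq_one (c i) (hr _) hz
    rw [om, RR_zero h2 h3, mul_zero]
  · have h1 : N ≤ 2 ^ (N + 2) - 4 := by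
      have h2 : N + 4 ≤ 2 ^ (N + 2) := by
        have := Nat.lt_two_pow_self (n := N)
        rw [pow_add]; omega
      omega
    have h2 : ∑ p ∈ range N, s p * al p y ≤ ∑ p ∈ range (2 ^ (N + 2) - 4), s p * al p y :=
      Finset.sum_le_sum_of_subset_of_nonneg (Finset.range_subset_range.2 h1)
        fun p _ _ => mul_nonneg (hs0 p).le (hal0 p y)
    refine h2.trans ?_
    rw [sum_pack]
    refine (Finset.sum_le_sum fun i _ => hblock1 i y).trans ?_
    rw [sum_add_distrib, sum_om, sum_inv_pow]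
    have h3 := ((RR_nice hχn N).1 y).1
    have h4 : (0 : ℝ) < 1 / 2 ^ (N + 1) := by positivity
    linarith
  · obtain ⟨i, hi⟩ := hcov y
    refine ⟨2 ^ (i + 1 + 2) - 4, fun M hM => ?_⟩
    have h2 : ∑ p ∈ range (2 ^ (i + 1 + 2) - 4), s p * al p y ^ 2 ≤ ∑ p ∈ range M, s p * al p y ^ 2 :=
      Finset.sum_le_sum_of_subset_of_nonneg (Finset.range_subset_range.2 hM)
        fun p _ _ => mul_nonneg (hs0 p).le (sq_nonneg _)
    refine le_trans ?_ h2
    rw [sum_pack]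
    refine le_trans ?_ (Finset.sum_le_sum fun j _ => hblock2 j y)
    rw [sum_sub_distrib, sum_om, sum_inv_pow]
    have h3 : RR χ (i + 1) y = 0 := RR_zero (Nat.lt_succ_self i) (bump_eq_one (c i) (hr _) hi)
    have h4 : (0 : ℝ) < 1 / 2 ^ (i + 1 + 1) := by positivity
    rw [h3]
    linarith

end MP49c203
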